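import Mathlib

/-! Definitions for the min-max theory of inscribed squares (MP_5a3ebe_gt).

A pair of points of the plane is written `(z, z')`, with `m = (z + z') / 2` and
`v = (z - z') / 2`.  Rotation of the pair by the angle `c` keeps `m` and multiplies `v` by
`exp (c i)`; rotation by `π / 2` maps two opposite vertices of a square to the other two. -/

namespace Pool.Agent.T2h7.Sq

open Complex Finset

/-- the area form of the plane -/
def cr (a b : ℂ) : ℝ := a.re * b.im - a.im * b.re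

/-- the inner product of the plane -/
def ip (a b : ℂ) : ℝ := a.re * b.re + a.im * b.im

/-- the gradient of a real function on the plane, as a complex number -/
noncomputable def gr (f : ℂ → ℝ) (z : ℂ) : ℂ :=
  (fderiv ℝ f z 1 : ℝ) + (fderiv ℝ f z I : ℝ) * I

/-! ### The discrete action -/

/-- midpoint data of one complex component -/
abbrev U (N : ℕ) := EuclideanSpace ℂ (Fin N)

/-- midpoint data of a discrete path of pairs: `inl k` is `m_k`, `inr k` is `v_k` -/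
abbrev V (N : ℕ) := EuclideanSpace ℂ (Fin N ⊕ Fin N)

/-- extension of a finite sequence by zero -/
noncomputable def ex {N : ℕ} (y : Fin N → ℂ) (k : ℕ) : ℂ := if h : k < N then y ⟨k, h⟩ else 0

/-- the vertices `x_0, x_1, …` of the polygon with midpoints `y_k = (x_k + x_{k+1}) / 2`,
`k < N`, and `x_N = ζ x_0` (for odd `N`) -/
noncomputable def vert (ζ : ℂ) (N : ℕ) (y : ℕ → ℂ) : ℕ → ℂ
  | 0 => 2 / (1 + ζ) * ∑ j ∈ range N, (-1) ^ j * y j
  | k + 1 => 2 * y k - vert ζ N y k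

/-- the discrete derivative `-i N (x_{k+1} - x_k)` of the polygon with midpoints `y` and
`x_N = exp (θ i) x_0` -/
noncomputable def dop (θ : ℝ) {N : ℕ} (y : Fin N → ℂ) (k : Fin N) : ℂ :=
  -I * N * (vert (exp (θ * I)) N (ex y) (k + 1) - vert (exp (θ * I)) N (ex y) k)

/-- the quadratic form (twice the area) of the polygon -/
noncomputable def quad (θ : ℝ) {N : ℕ} (y : Fin N → ℂ) : ℝ :=
  (∑ k, ip (y k) (dop θ y k)) / N

/-- the time of the midpoint `k` -/
noncomputable def tk (N k : ℕ) : ℝ := ((k : ℝ) + 1 / 2) / N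

/-- the `m`-component -/
def mm {N : ℕ} (y : V N) : Fin N → ℂ := fun k => y (Sum.inl k)

/-- the `v`-component -/
def vv {N : ℕ} (y : V N) : Fin N → ℂ := fun k => y (Sum.inr k)

/-- the quadratic part of the discrete action -/
noncomputable def qf {N : ℕ} (y : V N) : ℝ := quad 0 (mm y) + quad (Real.pi / 2) (vv y)

/-- the discrete action functional of the Hamiltonian `h` (a function of the time and of the
pair of points) -/
noncomputable def Phi (N : ℕ) (h : ℝ → ℂ → ℂ → ℝ) (y : V N) : ℝ :=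
  qf y - (∑ k : Fin N, h (tk N k) (mm y k + vv y k) (mm y k - vv y k)) / N

/-- the gradient of the Hamiltonian with respect to the first point -/
noncomputable def gz (h : ℝ → ℂ → ℂ → ℝ) (t : ℝ) (z z' : ℂ) : ℂ := gr (fun x => h t x z') z

/-- the gradient of the Hamiltonian with respect to the second point -/
noncomputable def gw (h : ℝ → ℂ → ℂ → ℝ) (t : ℝ) (z z' : ℂ) : ℂ := gr (fun x => h t z x) z'

/-- the gradient of the discrete action (with respect to the real inner product of `V N`) -/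
noncomputable def Gam (N : ℕ) (h : ℝ → ℂ → ℂ → ℝ) (y : V N) : V N :=
  WithLp.toLp 2 (Sum.elim
    (fun k => (2 * dop 0 (mm y) k - (gz h (tk N k) (mm y k + vv y k) (mm y k - vv y k) +
      gw h (tk N k) (mm y k + vv y k) (mm y k - vv y k))) / N)
    (fun k => (2 * dop (Real.pi / 2) (vv y) k -
      (gz h (tk N k) (mm y k + vv y k) (mm y k - vv y k) -
      gw h (tk N k) (mm y k + vv y k) (mm y k - vv y k))) / N))

/-- the constant discrete path `m = c`, `v = 0` -/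
noncomputable def cvec (N : ℕ) (c : ℂ) : V N := WithLp.toLp 2 (Sum.elim (fun _ => c) (fun _ => 0))

/-! ### Spectral bases -/

/-- the index shifted so that it is symmetric about zero (an integer for odd `N`) -/
noncomputable def ll {N : ℕ} (j : Fin N) : ℝ := (j : ℝ) - ((N : ℝ) - 1) / 2

/-- `b` is an orthonormal basis of eigenvectors of `dop θ + T`, with eigenvalues `μ`, numbered in
increasing order by the total rotation -/
structure SpecB (N : ℕ) (θ : ℝ) (T : Fin N → ℝ) (b : OrthonormalBasis (Fin N) ℂ (U N))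
    (μ : Fin N → ℝ) : Prop where
  eig : ∀ j k, dop θ (fun i => b j i) k + T k * b j k = μ j * b j k
  cnt : ∀ j, ∑ k, 2 * Real.arctan ((μ j - T k) / (2 * N)) = θ + 2 * Real.pi * ll j
  mod : ∀ j k k', ‖b j k‖ ^ 2 * (1 + ((μ j - T k) / (2 * N)) ^ 2) =
    ‖b j k'‖ ^ 2 * (1 + ((μ j - T k') / (2 * N)) ^ 2)

/-- the rotation speed in the window `t ≥ 1 - 1 / w` -/
noncomputable def win (w N : ℕ) (k : Fin N) : ℝ :=
  if tk N k < 1 - 1 / (w : ℝ) then 0 else Real.pi / 2 * w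

/-- the three spectral bases -/
structure Frame (N w : ℕ) where
  /-- basis for `m` -/
  bm : OrthonormalBasis (Fin N) ℂ (U N)
  /-- its eigenvalues -/
  μm : Fin N → ℝ
  sm : SpecB N 0 (fun _ => 0) bm μm
  /-- basis for `v` with the window rotation -/
  bv : OrthonormalBasis (Fin N) ℂ (U N)
  /-- its eigenvalues -/
  μv : Fin N → ℝ
  sv : SpecB N (Real.pi / 2) (win w N) bv μv
  /-- basis for `v` without rotation -/
  b0 : OrthonormalBasis (Fin N) ℂ (U N)
  /-- its eigenvalues -/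
  μ0 : Fin N → ℝ
  s0 : SpecB N (Real.pi / 2) (fun _ => 0) b0 μ0

/-- the nonpositive space: modes `l ≤ 0` of `m`, modes `l ≤ -1` of `v` (window basis) -/
noncomputable def EE {N w : ℕ} (Fr : Frame N w) : Submodule ℝ (V N) where
  carrier := {y | (∀ j, 1 / 2 < ll j → ∑ k, (starRingEnd ℂ) (Fr.bm j k) * y (Sum.inl k) = 0) ∧
    (∀ j, -(1 / 2) < ll j → ∑ k, (starRingEnd ℂ) (Fr.bv j k) * y (Sum.inr k) = 0)}
  add_mem' := by
    rintro a b ⟨ha, ha'⟩ ⟨hb, hb'⟩
    refine ⟨fun j hj => ?_, fun j hj => ?_⟩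
    · simp only [PiLp.add_apply, mul_add, sum_add_distrib, ha j hj, hb j hj, add_zero]
    · simp only [PiLp.add_apply, mul_add, sum_add_distrib, ha' j hj, hb' j hj, add_zero]
  zero_mem' := by
    refine ⟨fun j _ => ?_, fun j _ => ?_⟩ <;> simp
  smul_mem' := by
    rintro c a ⟨ha, ha'⟩
    refine ⟨fun j hj => ?_, fun j hj => ?_⟩
    · have := ha j hj
      simp only [PiLp.smul_apply, mul_smul_comm, ← smul_sum, this, smul_zero]
    · have := ha' j hj
      simp only [PiLp.smul_apply, mul_smul_comm, ← smul_sum, this, smul_zero]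

/-- the positive space: modes `l ≥ 1` of `m`, modes `l ≥ 0` of `v` (basis without rotation) -/
noncomputable def PP {N w : ℕ} (Fr : Frame N w) : Submodule ℝ (V N) where
  carrier := {y | (∀ j, ll j < 1 / 2 → ∑ k, (starRingEnd ℂ) (Fr.bm j k) * y (Sum.inl k) = 0) ∧
    (∀ j, ll j < -(1 / 2) → ∑ k, (starRingEnd ℂ) (Fr.b0 j k) * y (Sum.inr k) = 0)}
  add_mem' := by
    rintro a b ⟨ha, ha'⟩ ⟨hb, hb'⟩
    refine ⟨fun j hj => ?_, fun j hj => ?_⟩
    · simp only [PiLp.add_apply, mul_add, sum_add_distrib, ha j hj, hb j hj, add_zero]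
    · simp only [PiLp.add_apply, mul_add, sum_add_distrib, ha' j hj, hb' j hj, add_zero]
  zero_mem' := by
    refine ⟨fun j _ => ?_, fun j _ => ?_⟩ <;> simp
  smul_mem' := by
    rintro c a ⟨ha, ha'⟩
    refine ⟨fun j hj => ?_, fun j hj => ?_⟩
    · have := ha j hj
      simp only [PiLp.smul_apply, mul_smul_comm, ← smul_sum, this, smul_zero]
    · have := ha' j hj
      simp only [PiLp.smul_apply, mul_smul_comm, ← smul_sum, this, smul_zero]

/-- the first positive mode of `v` in the window basis (`j` is the index with `ll j = 0`),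
normalised so that its mean square is one -/
noncomputable def evec {N w : ℕ} (Fr : Frame N w) (j : Fin N) : V N :=
  WithLp.toLp 2 (Sum.elim (fun _ => 0) (fun k => (Real.sqrt N : ℂ) * Fr.bv j k))

/-! ### The Hamiltonians -/

/-- first point of the pair rotated by `c` -/
noncomputable def ra (c : ℝ) (z z' : ℂ) : ℂ := (z + z') / 2 + exp (c * I) * ((z - z') / 2)

/-- second point of the pair rotated by `c` -/
noncomputable def rb (c : ℝ) (z z' : ℂ) : ℂ := (z + z') / 2 - exp (c * I) * ((z - z') / 2)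

/-- the angle of the moving frame in the window -/
noncomputable def ang (w : ℕ) (t : ℝ) : ℝ := Real.pi / 2 * (1 - w * (1 - t))

/-- the two-phase Hamiltonian: first `F` at both points, then (in the rotating frame) the kick `g`
minus the rotation -/
noncomputable def ham (w : ℕ) (F : ℂ → ℝ) (g : ℂ → ℂ → ℝ) (t : ℝ) (z z' : ℂ) : ℝ :=
  if t < 1 - 1 / (w : ℝ) then F z + F z'
  else w * (g (ra (ang w t) z z') (rb (ang w t) z z') - Real.pi / 2 * ‖(z - z') / 2‖ ^ 2)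

/-- the final Hamiltonian: `F` at both points, then nothing -/
noncomputable def hamf (w : ℕ) (F : ℂ → ℝ) (t : ℝ) (z z' : ℂ) : ℝ :=
  if t < 1 - 1 / (w : ℝ) then F z + F z' else 0

/-- profile functions: zero up to `A`, derivative nondecreasing, equal to `M` from `A + ν` on -/
structure Prof (A ν M : ℝ) (f : ℝ → ℝ) : Prop where
  smooth : ContDiff ℝ 2 f
  zero : ∀ x ≤ A, f x = 0
  mono : Monotone (deriv f)
  top : ∀ x, A + ν ≤ x → deriv f x = M

/-- a bump function around `A`: one for `|x - A| ≤ A / 16`, zero for `|x - A| ≥ A / 8` -/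
noncomputable def bump (A x : ℝ) : ℝ := Real.smoothTransition ((4 - ((x - A) / (A / 16)) ^ 2) / 3)

/-- the kick: near antipodal pairs on circles of area near `A` -/
noncomputable def kick (A ε : ℝ) (z z' : ℂ) : ℝ :=
  ε * Real.smoothTransition (2 * (-(ip z z') / (‖z‖ * ‖z'‖)) - 1) *
    bump A (Real.pi * ‖z‖ ^ 2) * bump A (Real.pi * ‖z'‖ ^ 2)

/-! ### Area preserving isotopies -/

/-- a smooth isotopy of the plane, starting at the identity, by area preserving maps which are the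
identity outside the disc of radius `R₁`, with primitives `η` -/
structure Iso (R₁ : ℝ) where
  /-- the isotopy -/
  Ψ : ℝ → ℂ → ℂ
  /-- the inverse maps -/
  Φ : ℝ → ℂ → ℂ
  /-- the primitives -/
  η : ℝ → ℂ → ℝ
  smoothΨ : ContDiff ℝ 2 (fun p : ℝ × ℂ => Ψ p.1 p.2)
  smoothΦ : ContDiff ℝ 2 (fun p : ℝ × ℂ => Φ p.1 p.2)
  left : ∀ s z, Φ s (Ψ s z) = z
  right : ∀ s z, Ψ s (Φ s z) = z
  zero : ∀ z, Ψ 0 z = z
  far : ∀ s z, R₁ ≤ ‖z‖ → Ψ s z = z
  smoothη : ∀ s, ContDiff ℝ 1 (η s)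
  prim : ∀ s z ξ, fderiv ℝ (η s) z ξ = (cr (Ψ s z) (fderiv ℝ (Ψ s) z ξ) - cr z ξ) / 2
  area : ∀ s z ξ ξ', cr (fderiv ℝ (Ψ s) z ξ) (fderiv ℝ (Ψ s) z ξ') = cr ξ ξ'

/-- the Hamiltonian of one point in the first phase -/
noncomputable def FF {R₁ : ℝ} (P : Iso R₁) (f : ℝ → ℝ) (s : ℝ) (z : ℂ) : ℝ :=
  f (Real.pi * ‖P.Φ s z‖ ^ 2)

/-- the kick transported by the isotopy -/
noncomputable def GG {R₁ : ℝ} (P : Iso R₁) (A ε s : ℝ) (z z' : ℂ) : ℝ :=
  kick A ε (P.Φ s z) (P.Φ s z')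

/-- the family of two-phase Hamiltonians -/
noncomputable def HH {R₁ : ℝ} (P : Iso R₁) (A ε : ℝ) (w : ℕ) (f : ℝ → ℝ) (s : ℝ) :
    ℝ → ℂ → ℂ → ℝ := ham w (FF P f s) (GG P A ε s)

/-- the final Hamiltonian of an isotopy -/
noncomputable def HF {R₁ : ℝ} (P : Iso R₁) (w : ℕ) (f : ℝ → ℝ) : ℝ → ℂ → ℂ → ℝ :=
  hamf w (FF P f 1)

/-! ### Continuous time solutions -/

/-- a solution of the Hamiltonian system of `h` (smooth before and after `1 - 1 / w`) whose end is
the start rotated by `π / 2` -/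
structure XSol (w : ℕ) (h : ℝ → ℂ → ℂ → ℝ) (z z' : ℝ → ℂ) : Prop where
  cont : ContinuousOn z (Set.Icc 0 1)
  cont' : ContinuousOn z' (Set.Icc 0 1)
  d : ∀ t ∈ Set.Ioo (0 : ℝ) (1 - 1 / w) ∪ Set.Ioo (1 - 1 / (w : ℝ)) 1,
    HasDerivAt z (I * gz h t (z t) (z' t)) t ∧ HasDerivAt z' (I * gw h t (z t) (z' t)) t
  bc : z 1 = (z 0 + z' 0) / 2 + I * ((z 0 - z' 0) / 2)
  bc' : z' 1 = (z 0 + z' 0) / 2 - I * ((z 0 - z' 0) / 2)

/-- the action of a solution -/
noncomputable def XAct (h : ℝ → ℂ → ℂ → ℝ) (z z' : ℝ → ℂ) : ℝ :=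
  ∫ t in (0 : ℝ)..1, ((ip (gz h t (z t) (z' t)) (z t) + ip (gw h t (z t) (z' t)) (z' t)) / 2 -
    h t (z t) (z' t))

/-- a solution of the model system: rotation by the profile `f`, then the kick, whose end is the
start with the two points exchanged -/
structure USol (A ε : ℝ) (w : ℕ) (f : ℝ → ℝ) (a b : ℝ → ℂ) : Prop where
  cont : ContinuousOn a (Set.Icc 0 1)
  cont' : ContinuousOn b (Set.Icc 0 1)
  d1 : ∀ t ∈ Set.Ioo (0 : ℝ) (1 - 1 / w),
    HasDerivAt a (2 * Real.pi * I * (deriv f (Real.pi * ‖a t‖ ^ 2) : ℝ) * a t) t ∧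
    HasDerivAt b (2 * Real.pi * I * (deriv f (Real.pi * ‖b t‖ ^ 2) : ℝ) * b t) t
  d2 : ∀ t ∈ Set.Ioo (1 - 1 / (w : ℝ)) 1,
    HasDerivAt a (I * w * gr (fun x => kick A ε x (b t)) (a t)) t ∧
    HasDerivAt b (I * w * gr (fun x => kick A ε (a t) x) (b t)) t
  bc : a 1 = b 0
  bc' : b 1 = a 0

/-- the action of a solution of the model system -/
noncomputable def UAct (A ε : ℝ) (w : ℕ) (f : ℝ → ℝ) (a b : ℝ → ℂ) : ℝ :=
  (∫ t in (0 : ℝ)..(1 - 1 / w),
    (deriv f (Real.pi * ‖a t‖ ^ 2) * (Real.pi * ‖a t‖ ^ 2) - f (Real.pi * ‖a t‖ ^ 2) +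
      (deriv f (Real.pi * ‖b t‖ ^ 2) * (Real.pi * ‖b t‖ ^ 2) - f (Real.pi * ‖b t‖ ^ 2)))) +
  w * ∫ t in (1 - 1 / (w : ℝ))..1,
    ((ip (gr (fun x => kick A ε x (b t)) (a t)) (a t) +
      ip (gr (fun x => kick A ε (a t) x) (b t)) (b t)) / 2 - kick A ε (a t) (b t))

/-! ### The final data and the limit -/

/-- what a critical point of the final functional gives: in the coordinates `u = Φ z`, points
`a₀, a₁` and `b₀, b₁` on circles of area between `A` and `A + ν`, `a₁` is `a₀` turned by `k`, `b₁`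
is `b₀` turned by `l`, their images are the vertices of a (possibly degenerate) square, and the
action is about `α` -/
def FinData {R₁ : ℝ} (P : Iso R₁) (A ν M α₁ α₂ : ℝ) : Prop :=
  ∃ (a₀ a₁ b₀ b₁ : ℂ) (k l : ℝ), 0 ≤ k ∧ k ≤ M ∧ 0 ≤ l ∧ l ≤ M ∧
    A ≤ Real.pi * ‖a₀‖ ^ 2 ∧ Real.pi * ‖a₀‖ ^ 2 ≤ A + ν ∧
    A ≤ Real.pi * ‖b₀‖ ^ 2 ∧ Real.pi * ‖b₀‖ ^ 2 ≤ A + ν ∧
    a₁ = exp (2 * Real.pi * k * I) * a₀ ∧ b₁ = exp (2 * Real.pi * l * I) * b₀ ∧
    P.Ψ 1 a₁ = (P.Ψ 1 a₀ + P.Ψ 1 b₀) / 2 + I * ((P.Ψ 1 a₀ - P.Ψ 1 b₀) / 2) ∧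
    P.Ψ 1 b₁ = (P.Ψ 1 a₀ + P.Ψ 1 b₀) / 2 - I * ((P.Ψ 1 a₀ - P.Ψ 1 b₀) / 2) ∧
    α₁ - 2 * M * ν ≤ (k + l) * A + (P.η 1 a₁ - P.η 1 a₀) + (P.η 1 b₁ - P.η 1 b₀) ∧
    (k + l) * A + (P.η 1 a₁ - P.η 1 a₀) + (P.η 1 b₁ - P.η 1 b₀) ≤ α₂ + 2 * M * ν

/-- `ψ` is the end of a continuous isotopy which is a uniform limit of smooth area preserving
isotopies whose final primitives converge uniformly -/
structure Lim (R₁ : ℝ) (P : ℕ → Iso R₁) (Ψ : ℝ → ℂ → ℂ) (η : ℂ → ℝ) : Prop where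
  cont : ContinuousOn (fun p : ℝ × ℂ => Ψ p.1 p.2) (Set.Icc 0 1 ×ˢ Set.univ)
  inj : ∀ s ∈ Set.Icc (0 : ℝ) 1, Function.Injective (Ψ s)
  conv : ∀ ε > 0, ∃ n₀, ∀ n ≥ n₀, ∀ s ∈ Set.Icc (0 : ℝ) 1, ∀ z, ‖(P n).Ψ s z - Ψ s z‖ ≤ ε
  contη : Continuous η
  convη : ∀ ε > 0, ∃ n₀, ∀ n ≥ n₀, ∀ z, |(P n).η 1 z - η z| ≤ ε

/-- the homeomorphisms of the plane to which the theorem applies -/
def Adm (ψ : ℂ → ℂ) : Prop :=
  ∃ (R₁ : ℝ) (P : ℕ → Iso R₁) (Ψ : ℝ → ℂ → ℂ) (η : ℂ → ℝ), 0 < R₁ ∧ Lim R₁ P Ψ η ∧ Ψ 1 = ψ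

/-- the set contains the vertices of a square -/
def HasSquare (C : Set ℂ) : Prop :=
  ∃ m v : ℂ, v ≠ 0 ∧ m + v ∈ C ∧ m + I * v ∈ C ∧ m - v ∈ C ∧ m - I * v ∈ C

/-- the radial twist about `p` with angle function `h` -/
noncomputable def twist (p : ℂ) (h : ℝ → ℝ) (z : ℂ) : ℂ := p + (z - p) * exp (h ‖z - p‖ * I)

/-- admissible angle functions: continuous on `(0, ∞)`, zero from `R` on, arbitrary growth at `0`
slower than `r^(-2)` in the integrated sense -/
structure AngleFn (h : ℝ → ℝ) : Prop where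
  cont : ContinuousOn h (Set.Ioi 0)
  far : ∃ R : ℝ, ∀ r, R ≤ r → h r = 0
  int : MeasureTheory.IntegrableOn (fun r => r * h r) (Set.Ioi 0)
  lim : Filter.Tendsto (fun r => r ^ 2 * h r) (nhdsWithin 0 (Set.Ioi 0)) (nhds 0)

end Pool.Agent.T2h7.Sq
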