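import Pool.Agent.T2h7.Sq.Defs

/-! Statements of the steps (see the task board t7_tasks for the proofs). -/

namespace Pool.Agent.T2h7.Sq

open Complex Finset

/-- window part of the mean square -/
noncomputable def ws (w : ℕ) {N : ℕ} (y : V N) : ℝ :=
  (∑ k : Fin N, if tk N k < 1 - 1 / (w : ℝ) then 0 else ‖mm y k‖ ^ 2 + ‖vv y k‖ ^ 2) / N

/-- minus the quadratic part with the window rotation -/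
noncomputable def qn (w : ℕ) {N : ℕ} (y : V N) : ℝ :=
  -(qf y + (∑ k : Fin N, win w N k * ‖vv y k‖ ^ 2) / N)

/-- regularity of a Hamiltonian at each time -/
structure HReg (h : ℝ → ℂ → ℂ → ℝ) : Prop where
  c : ∀ t, Continuous (fun p : ℂ × ℂ => h t p.1 p.2)
  cz : ∀ t, Continuous (fun p : ℂ × ℂ => gz h t p.1 p.2)
  cw : ∀ t, Continuous (fun p : ℂ × ℂ => gw h t p.1 p.2)
  low : ∃ L : ℝ, ∀ t z z' a b, h t z z' + ip (gz h t z z') a + ip (gw h t z z') b -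
    L * (‖a‖ ^ 2 + ‖b‖ ^ 2) ≤ h t (z + a) (z' + b)

/-- DOP: basic properties of the discrete derivative -/
def Stm_DOP : Prop := ∀ (N : ℕ), Odd N → ∀ θ : ℝ, 0 ≤ θ → θ ≤ Real.pi / 2 →
  (∀ (y y' : Fin N → ℂ) k, dop θ (fun i => y i + y' i) k = dop θ y k + dop θ y' k) ∧
  (∀ (c : ℂ) (y : Fin N → ℂ) k, dop θ (fun i => c * y i) k = c * dop θ y k) ∧
  (∀ y y' : Fin N → ℂ, ∑ k, (starRingEnd ℂ) (y k) * dop θ y' k =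
    ∑ k, (starRingEnd ℂ) (dop θ y k) * y' k) ∧
  (∀ y : Fin N → ℂ, vert (exp (θ * I)) N (ex y) N = exp (θ * I) * vert (exp (θ * I)) N (ex y) 0) ∧
  (∀ (c : ℂ) (k : Fin N), dop 0 (fun _ => c) k = 0)

/-- SP: existence of the spectral bases -/
def Stm_SP : Prop := ∀ (N : ℕ), Odd N → ∀ θ : ℝ, 0 ≤ θ → θ ≤ Real.pi / 2 → ∀ T : Fin N → ℝ,
  ∃ (b : OrthonormalBasis (Fin N) ℂ (U N)) (μ : Fin N → ℝ), SpecB N θ T b μ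

/-- MM: the abstract min-max principle -/
def Stm_MM : Prop := ∀ (V : Type) [NormedAddCommGroup V] [InnerProductSpace ℝ V]
  [FiniteDimensional ℝ V] (E P : Submodule ℝ V) (e : V) (q : V → ℝ)
  (q₀ K L η b β β' lam : ℝ) (m : ℕ) (Φ : ℕ → V → ℝ) (Γ : ℕ → V → V) (c : ℕ → V),
  IsCompl E P → e ∉ E → Continuous q → (∀ (t : ℝ) x, q (t • x) = t ^ 2 * q x) →
  (∀ x ∈ P, x ≠ 0 → 0 < q x) → 0 < q₀ → 0 < K → 0 < η → 0 < b → β' + η < β → β' + η ≤ lam →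
  1 ≤ m →
  (∀ i ≤ m, Continuous (Φ i)) → (∀ i ≤ m, Continuous (Γ i)) →
  (∀ i ≤ m, ∀ x h, Φ i (x + h) ≤ Φ i x + inner ℝ (Γ i x) h + L * ‖h‖ ^ 2) →
  (∀ x ∈ E, ∀ ρ : ℝ, 0 ≤ ρ → Φ 0 (x + ρ • e) ≤ lam) →
  (∀ x ∈ E, ∀ ρ : ℝ, 0 ≤ ρ → (ρ = 0 ∨ K ≤ ‖x‖ ∨ K ≤ ρ) → Φ 0 (x + ρ • e) ≤ β') →
  (∀ i < m, ∀ x, Φ (i + 1) x ≤ Φ i x + η) →
  (∀ i, 1 ≤ i → i < m → ∀ x, (β' ≤ Φ i x ∧ Φ i x ≤ β' + η ∨ lam ≤ Φ i x ∧ Φ i x ≤ lam + η) →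
    b ≤ ‖Γ i x‖) →
  c 0 = 0 →
  (∀ i ≤ m, ∀ x ∈ P, q x = q₀ → β ≤ Φ i (c i + x)) →
  (∀ i < m, ∀ t ∈ Set.Icc (0 : ℝ) 1, ∀ x ∈ P, q x = q₀ →
    β ≤ Φ (i + 1) (c i + t • (c (i + 1) - c i) + x)) →
  ∃ x, β' ≤ Φ m x ∧ Φ m x ≤ lam + η ∧ ‖Γ m x‖ < b

/-- COMPL: the two spaces are complementary and the form is positive on the positive space -/
def Stm_COMPL : Prop := ∀ w : ℕ, 3 ≤ w → ∃ N₀ : ℕ, ∀ N ≥ N₀, Odd N → ∀ (Fr : Frame N w) (j : Fin N),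
  ll j = 0 → IsCompl (EE Fr) (PP Fr) ∧ evec Fr j ∉ EE Fr ∧ ∀ x ∈ PP Fr, x ≠ 0 → 0 < qf x

/-- CONC: elements of the nonpositive space do not concentrate on a short window -/
def Stm_CONC : Prop := ∀ θ : ℝ, 0 < θ → ∃ w₀ : ℕ, ∀ w ≥ w₀, ∃ N₀ : ℕ, ∀ N ≥ N₀, Odd N →
  ∀ (Fr : Frame N w), ∀ y ∈ EE Fr, 0 ≤ qn w y ∧ ws w y ≤ θ * (‖y‖ ^ 2 / N + qn w y)

/-- CHAIN: the functional of the disc on the half space `EE + [0, ∞) e` -/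
def Stm_CHAIN : Prop := ∀ A ε : ℝ, 0 < A → 0 < ε → ∃ (w : ℕ) (e₁ c₁ C₁ ν₀ : ℝ),
  3 ≤ w ∧ 0 < e₁ ∧ e₁ ≤ ε / 4 ∧ 0 < c₁ ∧ 0 < ν₀ ∧
  ∃ N₀ : ℕ, ∀ N ≥ N₀, Odd N → ∀ (Fr : Frame N w) (j : Fin N), ll j = 0 →
  ∀ ν, 0 < ν → ν ≤ ν₀ → ∀ M, 1 ≤ M → ∀ f, Prof A ν M f → ∀ x ∈ EE Fr, ∀ ρ : ℝ, 0 ≤ ρ →
    Phi N (ham w (fun z => f (Real.pi * ‖z‖ ^ 2)) (kick A ε)) (x + ρ • evec Fr j) ≤ A - e₁ ∧
    Phi N (ham w (fun z => f (Real.pi * ‖z‖ ^ 2)) (kick A ε)) (x + ρ • evec Fr j) ≤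
      C₁ - c₁ * (‖x‖ ^ 2 / N + ρ ^ 2) ∧
    (ρ = 0 →
      Phi N (ham w (fun z => f (Real.pi * ‖z‖ ^ 2)) (kick A ε)) (x + ρ • evec Fr j) ≤ 0)

/-- SPH: positivity on a small sphere of the positive space -/
def Stm_SPH : Prop := ∀ r μ : ℝ, 0 < r → 0 < μ → ∃ (q₀ : ℝ) (N₀ : ℕ), 0 < q₀ ∧ ∀ N ≥ N₀, Odd N →
  ∀ (w : ℕ) (Fr : Frame N w) (c : ℂ) (h : ℝ → ℂ → ℂ → ℝ),
  (∀ t z z', h t z z' ≤ μ * ((if r ≤ ‖z - c‖ then ‖z - c‖ ^ 2 else 0) +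
    (if r ≤ ‖z' - c‖ then ‖z' - c‖ ^ 2 else 0))) →
  ∀ x ∈ PP Fr, qf x = q₀ → q₀ / 2 ≤ Phi N h (cvec N c + x)

/-- DESC: descent inequality for the discrete action -/
def Stm_DESC : Prop := ∀ (N : ℕ), Odd N → ∀ h, HReg h →
  Continuous (Phi N h) ∧ Continuous (Gam N h) ∧
  ∃ L : ℝ, ∀ y x : V N, Phi N h (y + x) ≤ Phi N h y + inner ℝ (Gam N h y) x + L * ‖x‖ ^ 2

/-- HREG: our Hamiltonians are regular -/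
def Stm_HREG : Prop := ∀ (R₁ : ℝ) (P : Iso R₁) (A ε ν M : ℝ) (w : ℕ) (f : ℝ → ℝ), 0 < R₁ → 0 < A →
  0 < ν → 2 ≤ w → Prof A ν M f → (∀ s, HReg (HH P A ε w f s)) ∧ HReg (HF P w f)

/-- SC: uniform continuity of the family in `s` -/
def Stm_SC : Prop := ∀ (R₁ : ℝ) (P : Iso R₁) (A ε ν M : ℝ) (w : ℕ) (f : ℝ → ℝ), 0 < R₁ → 0 < A →
  0 < ν → 2 ≤ w → Prof A ν M f → ∃ C : ℝ, ∀ s ∈ Set.Icc (0 : ℝ) 1, ∀ s' ∈ Set.Icc (0 : ℝ) 1,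
  ∀ t z z', |HH P A ε w f s t z z' - HH P A ε w f s' t z z'| ≤ C * |s - s'|

/-- continuous convergence of time dependent fields, away from the time `1 - 1 / w` -/
def CConv {X : Type} [TopologicalSpace X] (w : ℕ) (G : ℕ → ℝ → ℂ → ℂ → X) (g : ℝ → ℂ → ℂ → X) :
    Prop :=
  ∀ t ∈ Set.Icc (0 : ℝ) 1, t ≠ 1 - 1 / w → ∀ z z' : ℂ, ∀ (tj : ℕ → ℝ) (zj zj' : ℕ → ℂ),
    Filter.Tendsto tj Filter.atTop (nhds t) → Filter.Tendsto zj Filter.atTop (nhds z) →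
    Filter.Tendsto zj' Filter.atTop (nhds z') →
    Filter.Tendsto (fun j => G j (tj j) (zj j) (zj' j)) Filter.atTop (nhds (g t z z'))

/-- CL: compactness of discrete solutions -/
def Stm_CL : Prop := ∀ (w : ℕ) (N : ℕ → ℕ) (x x' : ℕ → ℕ → ℂ) (Gz Gw : ℕ → ℝ → ℂ → ℂ → ℂ)
  (r r' : ℕ → ℕ → ℂ) (g g' : ℝ → ℂ → ℂ → ℂ) (C : ℝ), 2 ≤ w → (∀ j, 0 < N j) →
  Filter.Tendsto N Filter.atTop Filter.atTop →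
  (∀ j, ∀ k < N j, (N j : ℂ) * (x j (k + 1) - x j k) =
    I * (Gz j (tk (N j) k) ((x j k + x j (k + 1)) / 2) ((x' j k + x' j (k + 1)) / 2) + r j k)) →
  (∀ j, ∀ k < N j, (N j : ℂ) * (x' j (k + 1) - x' j k) =
    I * (Gw j (tk (N j) k) ((x j k + x j (k + 1)) / 2) ((x' j k + x' j (k + 1)) / 2) + r' j k)) →
  (∀ j t z z', ‖Gz j t z z'‖ ≤ C * (1 + ‖z‖ + ‖z'‖)) →
  (∀ j t z z', ‖Gw j t z z'‖ ≤ C * (1 + ‖z‖ + ‖z'‖)) →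
  Filter.Tendsto (fun j => (∑ k ∈ range (N j), (‖r j k‖ ^ 2 + ‖r' j k‖ ^ 2)) / N j)
    Filter.atTop (nhds 0) →
  (∀ j, (∑ k ∈ range (N j), (‖(x j k + x j (k + 1)) / 2‖ ^ 2 +
    ‖(x' j k + x' j (k + 1)) / 2‖ ^ 2)) / N j ≤ C) →
  CConv w Gz g → CConv w Gw g' →
  ContinuousOn (fun p : ℝ × ℂ × ℂ => g p.1 p.2.1 p.2.2) {p | p.1 ≠ 1 - 1 / (w : ℝ)} →
  ContinuousOn (fun p : ℝ × ℂ × ℂ => g' p.1 p.2.1 p.2.2) {p | p.1 ≠ 1 - 1 / (w : ℝ)} →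
  ∃ (φ : ℕ → ℕ) (z z' : ℝ → ℂ), StrictMono φ ∧ ContinuousOn z (Set.Icc 0 1) ∧
    ContinuousOn z' (Set.Icc 0 1) ∧
    (∀ t ∈ Set.Ioo (0 : ℝ) (1 - 1 / w) ∪ Set.Ioo (1 - 1 / (w : ℝ)) 1,
      HasDerivAt z (I * g t (z t) (z' t)) t ∧ HasDerivAt z' (I * g' t (z t) (z' t)) t) ∧
    ∀ ε > 0, ∃ j₀, ∀ j ≥ j₀, ∀ k ≤ N (φ j), ‖x (φ j) k - z (k / N (φ j))‖ ≤ ε ∧
      ‖x' (φ j) k - z' (k / N (φ j))‖ ≤ ε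

/-- NR: the linear systems at infinity have only the zero solution -/
def Stm_NR : Prop := ∀ (w : ℕ) (M : ℝ) (n : ℤ) (z z' : ℝ → ℂ), 2 ≤ w →
  M * (1 - 1 / w) = n + 1 / 8 →
  (XSol w (ham w (fun z => M * Real.pi * ‖z‖ ^ 2) (fun _ _ => 0)) z z' ∨
    XSol w (hamf w (fun z => M * Real.pi * ‖z‖ ^ 2)) z z') →
  ∀ t ∈ Set.Icc (0 : ℝ) 1, z t = 0 ∧ z' t = 0

/-- CT: almost critical points of the discrete actions converge to solutions -/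
def Stm_CT : Prop := ∀ (w : ℕ) (N : ℕ → ℕ) (h : ℕ → ℝ → ℂ → ℂ → ℝ) (h₀ hl : ℝ → ℂ → ℂ → ℝ)
  (y : ∀ j, V (N j)) (C : ℝ), 2 ≤ w → (∀ j, Odd (N j)) →
  Filter.Tendsto N Filter.atTop Filter.atTop →
  (∀ j t z z', ‖gz (h j) t z z' - gz hl t z z'‖ ≤ C) →
  (∀ j t z z', ‖gw (h j) t z z' - gw hl t z z'‖ ≤ C) →
  (∀ j t z z', |h j t z z'| ≤ C * (1 + ‖z‖ ^ 2 + ‖z'‖ ^ 2)) →
  CConv w h h₀ → CConv w (fun j => gz (h j)) (gz h₀) → CConv w (fun j => gw (h j)) (gw h₀) →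
  ContinuousOn (fun p : ℝ × ℂ × ℂ => gz h₀ p.1 p.2.1 p.2.2) {p | p.1 ≠ 1 - 1 / (w : ℝ)} →
  ContinuousOn (fun p : ℝ × ℂ × ℂ => gw h₀ p.1 p.2.1 p.2.2) {p | p.1 ≠ 1 - 1 / (w : ℝ)} →
  ContinuousOn (fun p : ℝ × ℂ × ℂ => gz hl p.1 p.2.1 p.2.2) {p | p.1 ≠ 1 - 1 / (w : ℝ)} →
  ContinuousOn (fun p : ℝ × ℂ × ℂ => gw hl p.1 p.2.1 p.2.2) {p | p.1 ≠ 1 - 1 / (w : ℝ)} →
  (∀ (c t : ℝ) (z z' : ℂ), gz hl t (c * z) (c * z') = c * gz hl t z z') →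
  (∀ (c t : ℝ) (z z' : ℂ), gw hl t (c * z) (c * z') = c * gw hl t z z') →
  (∀ t z z', ‖gz hl t z z'‖ ≤ C * (‖z‖ + ‖z'‖)) → (∀ t z z', ‖gw hl t z z'‖ ≤ C * (‖z‖ + ‖z'‖)) →
  (∀ z z', XSol w hl z z' → ∀ t ∈ Set.Icc (0 : ℝ) 1, z t = 0 ∧ z' t = 0) →
  Filter.Tendsto (fun j => (N j : ℝ) * ‖Gam (N j) (h j) (y j)‖ ^ 2) Filter.atTop (nhds 0) →
  ∃ (φ : ℕ → ℕ) (z z' : ℝ → ℂ), StrictMono φ ∧ XSol w h₀ z z' ∧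
    Filter.Tendsto (fun j => Phi (N (φ j)) (h (φ j)) (y (φ j))) Filter.atTop
      (nhds (XAct h₀ z z'))

/-- GAP: the possible actions of the model system -/
def Stm_GAP : Prop := ∀ A : ℝ, 0 < A → ∃ ε₀ > 0, ∀ ε, 0 < ε → ε ≤ ε₀ → ∀ (w : ℕ), 2 ≤ w →
  ∀ (ν M : ℝ), 0 < ν → ν ≤ A / 32 → 2 ≤ M * (1 - 1 / w) → ∀ f, Prof A ν M f →
  ∀ a b, USol A ε w f a b →
    UAct A ε w f a b ≤ 0 ∨ (A - ε ≤ UAct A ε w f a b ∧ UAct A ε w f a b ≤ A + ν - ε) ∨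
      3 * A / 2 ≤ UAct A ε w f a b

/-- CONJ: solutions of the family are solutions of the model system in the moving coordinates -/
def Stm_CONJ : Prop := ∀ (R₁ : ℝ) (P : Iso R₁) (A ε ν M : ℝ) (w : ℕ) (f : ℝ → ℝ), 0 < A → 0 < ν →
  2 ≤ w → Prof A ν M f → ∀ s z z', XSol w (HH P A ε w f s) z z' →
  ∃ a b, USol A ε w f a b ∧ UAct A ε w f a b = XAct (HH P A ε w f s) z z'

/-- FIN: solutions of the final system with action in the window give the final data -/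
def Stm_FIN : Prop := ∀ (R₁ : ℝ) (P : Iso R₁) (A ν M Cη α₁ α₂ : ℝ) (w : ℕ) (f : ℝ → ℝ), 0 < A →
  0 < ν → 0 < M → 2 ≤ w → Prof A ν M f → (∀ z, |P.η 1 z| ≤ Cη) → 0 < α₁ →
  α₂ + 4 * Cη < M * (1 - 1 / w) * A → ∀ z z', XSol w (HF P w f) z z' →
  α₁ ≤ XAct (HF P w f) z z' → XAct (HF P w f) z z' ≤ α₂ → FinData P A ν M α₁ α₂

/-- BAND: no almost critical points in a gap -/
def Stm_BAND : Prop := ∀ (R₁ : ℝ) (P : Iso R₁) (A ε ν M α₁ α₂ : ℝ) (w : ℕ) (f : ℝ → ℝ) (n : ℤ),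
  0 < R₁ → 0 < A → 0 < ν → 2 ≤ w → Prof A ν M f → M * (1 - 1 / w) = n + 1 / 8 →
  (∀ a b, USol A ε w f a b → ¬(α₁ ≤ UAct A ε w f a b ∧ UAct A ε w f a b ≤ α₂)) →
  ∃ N₀ : ℕ, ∀ N ≥ N₀, Odd N → ∃ b > 0, ∀ s ∈ Set.Icc (0 : ℝ) 1, ∀ y : V N,
    α₁ ≤ Phi N (HH P A ε w f s) y → Phi N (HH P A ε w f s) y ≤ α₂ →
    b ≤ ‖Gam N (HH P A ε w f s) y‖

/-- FINPT: almost critical points of the final functional give the final data -/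
def Stm_FINPT : Prop := ∀ (R₁ : ℝ) (P : Iso R₁) (A ν M Cη α₁ α₂ : ℝ) (w : ℕ) (f : ℝ → ℝ) (n : ℤ),
  0 < R₁ → 0 < A → 0 < ν → 0 < M → 2 ≤ w → Prof A ν M f → M * (1 - 1 / w) = n + 1 / 8 →
  (∀ z, |P.η 1 z| ≤ Cη) → 0 < α₁ → α₂ + 4 * Cη < M * (1 - 1 / w) * A →
  (∀ N₀ : ℕ, ∃ N ≥ N₀, Odd N ∧ ∃ y : V N, α₁ ≤ Phi N (HF P w f) y ∧ Phi N (HF P w f) y ≤ α₂ ∧
    ‖Gam N (HF P w f) y‖ ≤ 1 / N) →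
  FinData P A ν M α₁ α₂

/-- PROF: profile functions exist -/
def Stm_PROF : Prop := ∀ A ν M : ℝ, 0 < A → 0 < ν → 0 < M → ∃ f, Prof A ν M f

/-- UNI: uniform constants along a convergent sequence of isotopies -/
def Stm_UNI : Prop := ∀ (R₁ : ℝ) (P : ℕ → Iso R₁) (Ψ : ℝ → ℂ → ℂ) (η : ℂ → ℝ), 0 < R₁ →
  Lim R₁ P Ψ η → ∀ A : ℝ, 0 < A → ∃ (r κ Cη : ℝ) (n₀ : ℕ), 0 < r ∧ 0 < κ ∧ 0 < Cη ∧ ∀ n ≥ n₀,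
  (∀ z, |(P n).η 1 z| ≤ Cη) ∧
  ∀ s ∈ Set.Icc (0 : ℝ) 1,
    (∀ z, ‖z - (P n).Ψ s 0‖ ≤ r → Real.pi * ‖(P n).Φ s z‖ ^ 2 ≤ A) ∧
    (∀ a b, |Real.pi * ‖a‖ ^ 2 - A| ≤ A / 8 → |Real.pi * ‖b‖ ^ 2 - A| ≤ A / 8 →
      ip a b ≤ -(1 / 2) * (‖a‖ * ‖b‖) → κ ≤ ‖(P n).Ψ s a - (P n).Ψ s b‖)

/-- CORE: final data with uniform constants -/
def Stm_CORE : Prop := ∀ (R₁ : ℝ) (P : ℕ → Iso R₁) (Ψ : ℝ → ℂ → ℂ) (η : ℂ → ℝ), 0 < R₁ →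
  Lim R₁ P Ψ η → ∀ A : ℝ, 0 < A → ∃ (M α₁ α₂ ν₀ : ℝ) (n₀ : ℕ), 0 < M ∧ 0 < α₁ ∧ α₂ < A ∧ 0 < ν₀ ∧
  ∀ n ≥ n₀, ∀ ν, 0 < ν → ν ≤ ν₀ → FinData (P n) A ν M α₁ α₂

/-- LIMSQ: the limit of final data is an inscribed square -/
def Stm_LIMSQ : Prop := ∀ (R₁ : ℝ) (P : ℕ → Iso R₁) (Ψ : ℝ → ℂ → ℂ) (η : ℂ → ℝ)
  (A M α₁ α₂ ν₀ : ℝ) (n₀ : ℕ), 0 < R₁ →
  Lim R₁ P Ψ η → 0 < A → 0 < M → 0 < α₁ → α₂ < A → 0 < ν₀ →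
  (∀ n ≥ n₀, ∀ ν, 0 < ν → ν ≤ ν₀ → FinData (P n) A ν M α₁ α₂) →
  HasSquare (Ψ 1 '' Metric.sphere (0 : ℂ) (Real.sqrt (A / Real.pi)))

/-- TWISO: smooth radial twists are ends of isotopies -/
def Stm_TWISO : Prop := ∀ (p : ℂ) (h : ℝ → ℝ) (δ R : ℝ), 0 < δ → 0 < R → ContDiff ℝ 3 h →
  (∀ r ≤ δ, h r = h 0) → (∀ r, R ≤ r → h r = 0) →
  ∃ P : Iso (‖p‖ + R), (∀ s z, P.Ψ s z = twist p (fun r => s * h r) z) ∧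
    ∀ s z, P.η s z = s * (‖z - p‖ ^ 2 * h ‖z - p‖ / 2 + ∫ x in ‖z - p‖..R, x * h x) +
      cr p (twist p (fun r => s * h r) z - z) / 2

/-- COMPI: composition of isotopies (and change of the radius) -/
def Stm_COMPI : Prop := (∀ (R₁ R₂ : ℝ) (P : Iso R₁), R₁ ≤ R₂ →
    ∃ Q : Iso R₂, Q.Ψ = P.Ψ ∧ Q.η = P.η) ∧
  ∀ (R₁ : ℝ) (P Q : Iso R₁), ∃ S : Iso R₁, (∀ s z, S.Ψ s z = P.Ψ s (Q.Ψ s z)) ∧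
    ∀ s z, S.η s z = Q.η s z + P.η s (Q.Ψ s z)

/-- ADMC: the admissible homeomorphisms are closed under composition -/
def Stm_ADMC : Prop := Adm id ∧ ∀ ψ ψ' : ℂ → ℂ, Adm ψ → Adm ψ' → Adm (ψ ∘ ψ')

/-- ADMT: radial twists are admissible -/
def Stm_ADMT : Prop := ∀ (p : ℂ) (h : ℝ → ℝ), AngleFn h → Adm (twist p h)

/-- the composition of a list of twists -/
noncomputable def twists (l : List (ℂ × (ℝ → ℝ))) : ℂ → ℂ :=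
  l.foldr (fun x ψ => twist x.1 x.2 ∘ ψ) id

/-- the final theorem -/
def Stm_FINAL : Prop :=
  (∀ ψ, Adm ψ → ∀ R : ℝ, 0 < R → HasSquare (ψ '' Metric.sphere 0 R)) ∧
  ∀ l : List (ℂ × (ℝ → ℝ)), (∀ x ∈ l, AngleFn x.2) → ∀ (c : ℂ) (R : ℝ), 0 < R →
    HasSquare (twists l '' Metric.sphere c R)

end Pool.Agent.T2h7.Sq
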